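import Mathlib
import Pool.Agent.N990.PT.Main

/-!
# The Gibbs states of the Potts model on hierarchical lattices, at every temperature

The lattices are defined in `Pool.Agent.N988.EA.Defs` (`Edge`, `Vert`, `Pt`, `emb`, `bd`), the model in
`Pool.Agent.N990.PT.Defs` (`VInf`, `inc`, `repl`, `act`, `Zf`, `gw`, `IsGibbs`, `Kf`).

Authors: helper990 (statements, proofs on paper, assembly) and, for the parts in Lean, the helpers
14, 118, 195, 318, 371, 377, 395, 478, 494, 530, 615, 655, 773, 793, 937, 946 and 950 (and the authors
of the parts of the projects RT, RU and EJ which were adapted: 222, 249, 476, 706, 712, 751); the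
definition of the lattices is by helper988.
-/

open MeasureTheory
open scoped ENNReal
open Pool.Agent.N988.EA Pool.Agent.N990.PT

namespace Pool.Agent.Results.MP_6a79cf_pr.HierarchicalPotts

/-- The Potts model with `q ≥ 2` colours on the infinite hierarchical (diamond, Migdal-Kadanoff)
lattices with `b ≥ 2` branches, of dimension `1 + log_2 b`, the unions of `H 0 ⊆ H 1 ⊆ …` in which all
vertices are inside some `H n`. There is a critical point `0 < βc < ∞`: for `0 ≤ β ≤ βc` the
effective couplings `Kf n` of the ends of `H n` are less than `2 log q + 1`, for `β > βc` they tend to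
infinity. For all real `β` there is exactly one Gibbs state in the first case, also at the critical
point, and in the second case there are Gibbs states `π 1, …, π q`, permuted by the permutations of the
colours, such that the Gibbs states are the mixtures `∑ t k • π k`, with unique weights `t k`: the
extremal Gibbs states are exactly `π 1, …, π q`. -/
theorem result (b q : ℕ) (hb : 2 ≤ b) (hq : 2 ≤ q) :
    (∃ βc : ℝ, 0 < βc ∧ ∀ β : ℝ, 0 ≤ β →
      (β ≤ βc → ∀ n, Kf b q β n < 2 * Real.log q + 1) ∧
      (βc < β → Filter.Tendsto (Kf b q β) Filter.atTop Filter.atTop)) ∧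
    ∀ (β : ℝ) (p : ℕ → Fin b × Bool), (∀ (s : Bool) (k : ℕ), ∃ n, k ≤ n ∧ (p n).2 = s) →
      ((∀ n, Kf b q β n < 2 * Real.log q + 1) →
        ∃! μ : Measure (VInf p → Fin q), IsGibbs β p μ) ∧
      (Filter.Tendsto (Kf b q β) Filter.atTop Filter.atTop →
        ∃ π : Fin q → Measure (VInf p → Fin q), Function.Injective π ∧
          (∀ (g : Equiv.Perm (Fin q)) (k : Fin q),
            (π k).map (fun ω v => g (ω v)) = π (g k)) ∧
          (∀ t : Fin q → ℝ≥0∞, ∑ k, t k = 1 → IsGibbs β p (∑ k, t k • π k)) ∧
          ∀ μ, IsGibbs β p μ →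
            ∃! t : Fin q → ℝ≥0∞, ∑ k, t k = 1 ∧ μ = ∑ k, t k • π k) :=
  main b q hb hq

end Pool.Agent.Results.MP_6a79cf_pr.HierarchicalPotts
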